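import Pool.Agent.H46.DPG.CRW

/-!
Board `dpg`, row CNS.
-/

set_option autoImplicit false

namespace Pool.DPG

open Finset

open Classical in
theorem cns_thm : CNSStmt := by
  intro n
  have h1 : (univ.filter fun E : Fin n → Fin n → Bool => ∃ v, ∀ w, E v w = false) ⊆
      (univ : Finset (Fin n)).biUnion fun v =>
        univ.filter fun E : Fin n → Fin n → Bool => ∀ a ∈ ({v} : Finset (Fin n)),
          (E a = fun _ => false) := by
    intro E hE
    obtain ⟨v, hv⟩ := (mem_filter.1 hE).2
    rw [mem_biUnion]
    refine ⟨v, mem_univ _, mem_filter.2 ⟨mem_univ _, ?_⟩⟩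
    intro a ha
    rw [mem_singleton.1 ha]
    funext w
    exact hv w
  have h2 : ∀ v : Fin n, 2 ^ n * (univ.filter fun E : Fin n → Fin n → Bool =>
      ∀ a ∈ ({v} : Finset (Fin n)), (E a = fun _ => false)).card = 2 ^ (n * n) := by
    intro v
    have h3 := CRW.rows ({v} : Finset (Fin n)) (fun x => x = fun _ => false)
    have h4 : (univ.filter fun x : Fin n → Bool => x = fun _ => false).card = 1 := by
      rw [card_eq_one]
      refine ⟨fun _ => false, ?_⟩
      ext x
      simp
    have hn : 1 ≤ n := by
      have := v.2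
      omega
    have h5 : (univ.filter fun E : Fin n → Fin n → Bool =>
        ∀ a ∈ ({v} : Finset (Fin n)), (E a = fun _ => false)).card = (2 ^ n) ^ (n - 1) := by
      calc _ = (univ.filter fun x : Fin n → Bool => x = fun _ => false).card ^
            ({v} : Finset (Fin n)).card * (2 ^ n) ^ (n - ({v} : Finset (Fin n)).card) := by
            convert h3
        _ = _ := by rw [card_singleton, pow_one, h4, one_mul]
    rw [h5, ← pow_succ', Nat.sub_add_cancel hn, ← pow_mul]
  calc 2 ^ n * (univ.filter fun E : Fin n → Fin n → Bool => ∃ v, ∀ w, E v w = false).card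
      ≤ 2 ^ n * ∑ v : Fin n, (univ.filter fun E : Fin n → Fin n → Bool =>
        ∀ a ∈ ({v} : Finset (Fin n)), (E a = fun _ => false)).card :=
        Nat.mul_le_mul_left _ ((card_le_card h1).trans card_biUnion_le)
    _ = ∑ v : Fin n, 2 ^ n * (univ.filter fun E : Fin n → Fin n → Bool =>
        ∀ a ∈ ({v} : Finset (Fin n)), (E a = fun _ => false)).card := mul_sum _ _ _
    _ = n * 2 ^ (n * n) := by
        rw [sum_congr rfl fun v _ => h2 v, sum_const, card_univ, Fintype.card_fin, smul_eq_mul]

end Pool.DPG
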