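import Pool.Agent.H5.DPG.Stmts

/-!
Board `dpg`, row CRW (and the count used in row CNS).
-/

set_option autoImplicit false

namespace Pool.DPG

open Finset

namespace CRW

open Classical in
/-- Conditions on some rows. -/
theorem rows {n : ℕ} (A : Finset (Fin n)) (R : (Fin n → Bool) → Prop) :
    (univ.filter fun E : Fin n → Fin n → Bool => ∀ a ∈ A, R (E a)).card =
      (univ.filter fun x : Fin n → Bool => R x).card ^ A.card * (2 ^ n) ^ (n - A.card) := by
  have h1 : (univ.filter fun E : Fin n → Fin n → Bool => ∀ a ∈ A, R (E a)) =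
      Fintype.piFinset fun a => if a ∈ A then univ.filter (fun x : Fin n → Bool => R x) else univ := by
    ext E
    rw [mem_filter, Fintype.mem_piFinset]
    constructor
    · intro h a
      by_cases ha : a ∈ A
      · rw [if_pos ha]
        exact mem_filter.2 ⟨mem_univ _, h.2 a ha⟩
      · rw [if_neg ha]
        exact mem_univ _
    · intro h
      refine ⟨mem_univ _, fun a ha => ?_⟩
      have h2 := h a
      rw [if_pos ha] at h2
      exact (mem_filter.1 h2).2
  rw [h1, Fintype.card_piFinset]
  have h2 : ∀ a : Fin n,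
      (if a ∈ A then univ.filter (fun x : Fin n → Bool => R x) else univ).card =
      if a ∈ A then (univ.filter fun x : Fin n → Bool => R x).card else 2 ^ n := by
    intro a
    split_ifs
    · rfl
    · rw [card_univ]
      simp
  rw [prod_congr rfl fun a _ => h2 a, prod_ite, prod_const, prod_const]
  congr 2
  · congr 1
    ext a
    simp
  · have h3 : (univ.filter fun a : Fin n => a ∉ A) = Aᶜ := by
      ext a
      simp
    rw [h3, card_compl, Fintype.card_fin]

open Classical in
/-- One row. -/
theorem row (hCSB : CSBStmt) {n k : ℕ} (B : Finset (Fin n)) (hB : B.card = 8 * k) :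
    (univ.filter fun x : Fin n → Bool => (B.filter fun b => x b = true).card < k).card ≤
      2 ^ (5 * k) * 2 ^ (n - 8 * k) := by
  have h1 := hCSB (Fin n) k B hB
  have h2 : (Bᶜ.powerset).card = 2 ^ (n - 8 * k) := by
    rw [card_powerset, card_compl, Fintype.card_fin, hB]
  rw [← h2]
  refine le_trans ?_ (Nat.mul_le_mul_right _ h1)
  rw [← card_product]
  refine card_le_card_of_injOn
    (fun x => (B.filter fun b => x b = true, Bᶜ.filter fun b => x b = true)) ?_ ?_
  · intro x hx
    rw [mem_coe, mem_filter] at hx
    rw [mem_coe, mem_product, mem_filter, mem_powerset, mem_powerset]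
    exact ⟨⟨filter_subset _ _, hx.2⟩, filter_subset _ _⟩
  · intro x _ y _ hxy
    have e1 := congrArg Prod.fst hxy
    have e2 := congrArg Prod.snd hxy
    funext b
    have h3 : x b = true ↔ y b = true := by
      by_cases hb : b ∈ B
      · have h4 : b ∈ B.filter (fun b => x b = true) ↔ b ∈ B.filter (fun b => y b = true) := by
          have := e1
          simp only at this
          rw [this]
        rw [mem_filter, mem_filter] at h4
        exact ⟨fun h => (h4.1 ⟨hb, h⟩).2, fun h => (h4.2 ⟨hb, h⟩).2⟩
      · have h4 : b ∈ Bᶜ.filter (fun b => x b = true) ↔ b ∈ Bᶜ.filter (fun b => y b = true) := by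
          have := e2
          simp only at this
          rw [this]
        rw [mem_filter, mem_filter] at h4
        have hb' : b ∈ Bᶜ := mem_compl.2 hb
        exact ⟨fun h => (h4.1 ⟨hb', h⟩).2, fun h => (h4.2 ⟨hb', h⟩).2⟩
    exact Bool.eq_iff_iff.2 h3

theorem arith {n k : ℕ} (h8 : 8 * k ≤ n) :
    2 ^ (3 * k * k) * ((2 ^ (5 * k) * 2 ^ (n - 8 * k)) ^ k * (2 ^ n) ^ (n - k)) = 2 ^ (n * n) := by
  rw [← pow_add, ← pow_mul, ← pow_mul, ← pow_add, ← pow_add]
  congr 1
  obtain ⟨d, rfl⟩ := Nat.exists_eq_add_of_le h8
  rw [show 8 * k + d - 8 * k = d by omega, show 8 * k + d - k = 7 * k + d by omega]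
  ring

end CRW

open Classical in
theorem crw_thm (hCSB : CSBStmt) : CRWStmt := by
  intro n k A B hA hB
  have h8 : 8 * k ≤ n := by
    rw [← hB]
    exact (card_le_univ B).trans (by rw [Fintype.card_fin])
  have h1 : 2 ^ (3 * k * k) * (univ.filter fun E : Fin n → Fin n → Bool =>
      ∀ a ∈ A, (B.filter fun b => E a b = true).card < k).card ≤ 2 ^ (n * n) := by
    have h2 := CRW.rows A (fun x => (B.filter fun b => x b = true).card < k)
    have h3 : (univ.filter fun E : Fin n → Fin n → Bool =>
        ∀ a ∈ A, (B.filter fun b => E a b = true).card < k).card ≤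
        (2 ^ (5 * k) * 2 ^ (n - 8 * k)) ^ k * (2 ^ n) ^ (n - k) := by
      rw [hA] at h2
      refine le_trans (le_of_eq ?_) (Nat.mul_le_mul_right _ (Nat.pow_le_pow_left
        (CRW.row hCSB B hB) k))
      convert h2
    rw [← CRW.arith h8]
    exact Nat.mul_le_mul_left _ h3
  refine ⟨h1, ?_⟩
  have h3 : (univ.filter fun E : Fin n → Fin n → Bool =>
      ∀ a ∈ A, (B.filter fun b => E b a = true).card < k).card =
      (univ.filter fun E : Fin n → Fin n → Bool =>
      ∀ a ∈ A, (B.filter fun b => E a b = true).card < k).card := by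
    refine card_bij (fun E _ => fun a b => E b a) ?_ ?_ ?_
    · intro E hE
      rw [mem_filter] at hE ⊢
      exact ⟨mem_univ _, hE.2⟩
    · intro E _ E' _ h
      funext a b
      exact congrFun (congrFun h b) a
    · intro E hE
      refine ⟨fun a b => E b a, ?_, rfl⟩
      rw [mem_filter] at hE ⊢
      exact ⟨mem_univ _, hE.2⟩
  rw [h3]
  exact h1

end Pool.DPG
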